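import Pool.Agent.Lib.MP_5349a4_pr.M.Hedge2.Fin

/-!
# The Poisson minimal spanning forest has infinitely many components in dimensions from 1225000 on
-/

set_option autoImplicit false
open MeasureTheory ProbabilityTheory

namespace Pool.Agent.Results.MP_5349a4_pr.InfinitelyMany

universe u

/-- The minimal spanning forest of a set `S` of points of `ℝ^d`: the graph with vertex set `S` in
which two distinct points `x`, `y` are joined if and only if there is no finite sequence
`x = z 0, z 1, ..., z k = y` of points of `S` with all steps shorter than `|x - y|`. -/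
def MSF {d : ℕ} (S : Set (EuclideanSpace ℝ (Fin d))) : SimpleGraph S where
  Adj x y := x ≠ y ∧ ¬ ∃ (k : ℕ) (z : ℕ → S), z 0 = x ∧ z k = y ∧
    ∀ i, i < k → dist (z (i + 1)) (z i) < dist x y
  symm := by
    constructor
    rintro x y ⟨hne, h⟩
    refine ⟨hne.symm, ?_⟩
    rintro ⟨k, z, h0, hk, hz⟩
    refine h ⟨k, fun i => z (k - i), by simpa using hk, by simpa using h0, ?_⟩
    intro i hi
    have h1 := hz (k - (i + 1)) (by omega)
    have h2 : k - (i + 1) + 1 = k - i := by omega
    rw [h2, dist_comm, dist_comm y x] at h1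
    exact h1
  loopless := by
    constructor
    intro x h
    exact h.1 rfl

/-- `S` is a homogeneous Poisson point process on `ℝ^d` with intensity one, on the probability
space `(Ω, P)`: it is almost surely locally finite, the number of its points in a bounded
measurable set `A` has the Poisson law with mean the volume of `A`, and the numbers of points in
finitely many disjoint bounded measurable sets are independent. -/
structure IsPoissonProcess {d : ℕ} {Ω : Type u} [MeasurableSpace Ω] (P : Measure Ω)
    (S : Ω → Set (EuclideanSpace ℝ (Fin d))) : Prop where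
  locallyFinite : ∀ᵐ ω ∂P, ∀ A : Set (EuclideanSpace ℝ (Fin d)),
    Bornology.IsBounded A → (S ω ∩ A).Finite
  count : ∀ A : Set (EuclideanSpace ℝ (Fin d)), MeasurableSet A → Bornology.IsBounded A →
    P.map (fun ω => (S ω ∩ A).ncard) = poissonMeasure (volume A).toNNReal
  indep : ∀ (k : ℕ) (A : Fin k → Set (EuclideanSpace ℝ (Fin d))), (∀ i, MeasurableSet (A i)) →
    (∀ i, Bornology.IsBounded (A i)) → (∀ i j, i ≠ j → Disjoint (A i) (A j)) →
    iIndepFun (fun i ω => (S ω ∩ A i).ncard) P

open Pool.Agent.Lib.MP_5349a4_pr in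
theorem poisson_eq (v : NNReal) : (poissonPMF v).toMeasure = poissonMeasure v := by
  rw [Measure.ext_iff_singleton]
  intro n
  rw [H98.Froz.poisson_singleton, poissonMeasure_singleton, ENNReal.ofReal_div_of_pos
    (by positivity), ENNReal.ofReal_mul (by positivity), ENNReal.ofReal_pow (by positivity),
    ENNReal.ofReal_coe_nnreal, ENNReal.ofReal_natCast]

open Pool.Agent.Lib.MP_5349a4_pr in
theorem isPoi {d : ℕ} {Ω : Type u} [MeasurableSpace Ω] {P : Measure Ω}
    {S : Ω → Set (EuclideanSpace ℝ (Fin d))} (h : IsPoissonProcess P S) :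
    Hedge2.IsPoi d P S := by
  refine ⟨h.locallyFinite, fun A hA hb => ?_, fun k A hA hb hd => h.indep k A hA hb hd⟩
  rw [poisson_eq]
  exact h.count A hA hb

open Pool.Agent.Lib.MP_5349a4_pr in
theorem edge_of_adj {d : ℕ} {S : Set (EuclideanSpace ℝ (Fin d))} {x y : S}
    (h : (MSF S).Adj x y) : edge S x y := by
  refine ⟨x.2, y.2, fun e => h.1 (Subtype.ext e), fun hmem => h.2 ?_⟩
  obtain ⟨k, z, h0, hk, hS, hd⟩ := H98.exists_chain_of_och x.2 hmem
  classical
  refine ⟨k, fun i => if hi : i ≤ k then ⟨z i, hS i hi⟩ else x, ?_, ?_, ?_⟩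
  · simp only [Nat.zero_le, dif_pos]
    exact Subtype.ext h0
  · simp only [le_refl, dif_pos]
    exact Subtype.ext hk
  · intro i hi
    have h1 : i ≤ k := hi.le
    have h2 : i + 1 ≤ k := hi
    simp only [h1, h2, dif_pos]
    exact hd i hi

open Pool.Agent.Lib.MP_5349a4_pr in
theorem path_of_reachable {d : ℕ} {S : Set (EuclideanSpace ℝ (Fin d))} {x y : S}
    (h : (MSF S).Reachable x y) : Relation.ReflTransGen (edge S) x y := by
  obtain ⟨p⟩ := h
  induction p with
  | nil => exact Relation.ReflTransGen.refl
  | cons hadj _ ih => exact Relation.ReflTransGen.head (edge_of_adj hadj) ih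

open Pool.Agent.Lib.MP_5349a4_pr in
theorem infinite_of_many {d : ℕ} {S : Set (EuclideanSpace ℝ (Fin d))} (h : Hedge2.Many S) :
    Infinite (MSF S).ConnectedComponent := by
  by_contra hcon
  rw [not_infinite_iff_finite] at hcon
  obtain ⟨f, hf, hne⟩ := h (Nat.card (MSF S).ConnectedComponent + 1)
  have hinj : Function.Injective fun i : Fin (Nat.card (MSF S).ConnectedComponent + 1) =>
      (MSF S).connectedComponentMk ⟨f i, hf i⟩ := by
    intro i j hij
    by_contra hne'
    exact hne i j hne' (path_of_reachable (SimpleGraph.ConnectedComponent.exact hij))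
  have h1 := Nat.card_le_card_of_injective _ hinj
  rw [Nat.card_eq_fintype_card, Fintype.card_fin] at h1
  omega

open Pool.Agent.Lib.MP_5349a4_pr in
/-- In every dimension `d ≥ 1225000` there are unit-intensity Poisson processes on `ℝ^d`, and the
minimal spanning forest of every such process has almost surely infinitely many connected
components. -/
theorem result (d : ℕ) (hd : 1225000 ≤ d) :
    (∃ (Ω : Type) (mΩ : MeasurableSpace Ω) (P : Measure Ω)
      (S : Ω → Set (EuclideanSpace ℝ (Fin d))), IsProbabilityMeasure P ∧ IsPoissonProcess P S) ∧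
    ∀ (Ω : Type u) [MeasurableSpace Ω] (P : Measure Ω) [IsProbabilityMeasure P]
      (S : Ω → Set (EuclideanSpace ℝ (Fin d))), IsPoissonProcess P S →
      ∀ᵐ ω ∂P, Infinite (MSF (S ω)).ConnectedComponent := by
  refine ⟨?_, ?_⟩
  · obtain ⟨Ω, mΩ, P, S, hP, hS⟩ := Hedge2.exists_poi (d := d) (by omega)
    refine ⟨Ω, mΩ, P, S, hP, hS.lf, fun A hA hb => ?_, fun k A hA hb hd => hS.ind k A hA hb ?_⟩
    · rw [← poisson_eq]
      exact hS.cnt A hA hb
    · exact fun i j hij => hd i j hij
  · intro Ω _ P _ S hS
    filter_upwards [Hedge2.main d hd Ω P S (isPoi hS)] with ω hω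
    exact infinite_of_many hω

end Pool.Agent.Results.MP_5349a4_pr.InfinitelyMany
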